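import Mathlib

/-!
# MP_71be7b_lc: the number of isomorphism types of `k`-generated projective algebras of plane sets

For every `k ≥ 1` there are exactly `2^ℵ₀` isomorphism classes of projective algebras generated by
`k` subsets of the plane (also if the `k` generators are asked to be distinct).

Lower bound: for `A ⊆ ℕ` take the single generator
`S_A = {(x, y) : y ≠ 0, ⌊x⌋₊ ≤ ⌊y⌋₊} ∪ {(x, 0) : ⌊x⌋₊ ∈ A}`.  The staircase lets one define, by
projective-algebra terms not depending on `A`, the sets `{(x, 0) : ⌊x⌋₊ = n}`; so the isomorphism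
type of the algebra *with* its generator recovers `A`; the algebra is countable, so
every isomorphism type occurs for at most countably many `A`.
-/

open Set Cardinal

namespace Pool.Agent.Results.MP_71be7b_lc.Continuum

/-- The plane. -/
abbrev Plane : Type := ℝ × ℝ

/-- The axis `X = ℝ × {0}`. -/
def axX : Set Plane := {p | p.2 = 0}

/-- The axis `Y = {0} × ℝ`. -/
def axY : Set Plane := {p | p.1 = 0}

/-- `π₁(S) = {(x,0) : ∃ y, (x,y) ∈ S}`. -/
def pr1 (S : Set Plane) : Set Plane := {p | p.2 = 0 ∧ ∃ y : ℝ, (p.1, y) ∈ S}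

/-- `π₂(S) = {(0,y) : ∃ x, (x,y) ∈ S}`. -/
def pr2 (S : Set Plane) : Set Plane := {p | p.1 = 0 ∧ ∃ x : ℝ, (x, p.2) ∈ S}

/-- `A ⊗ B = {(x,y) : (x,0) ∈ A, (0,y) ∈ B}`. -/
def tens (A B : Set Plane) : Set Plane := {p | (p.1, 0) ∈ A ∧ (0, p.2) ∈ B}

/-- A projective algebra of plane sets: a family of subsets of the plane closed under complement,
finite unions, the two projections, and `A ⊗ B` for members `A ⊆ X`, `B ⊆ Y`. -/
structure ProjAlg where
  sets : Set (Set Plane)
  empty_mem : ∅ ∈ sets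
  compl_mem : ∀ A ∈ sets, Aᶜ ∈ sets
  union_mem : ∀ A ∈ sets, ∀ B ∈ sets, A ∪ B ∈ sets
  pr1_mem : ∀ A ∈ sets, pr1 A ∈ sets
  pr2_mem : ∀ A ∈ sets, pr2 A ∈ sets
  tens_mem : ∀ A ∈ sets, ∀ B ∈ sets, A ⊆ axX → B ⊆ axY → tens A B ∈ sets

/-- The projective algebra generated by a family of plane sets: the smallest one containing all of
them (see `subset_gen` and `gen_le`). -/
def gen {ι : Type} (S : ι → Set Plane) : ProjAlg where
  sets := {A | ∀ F : ProjAlg, (∀ i, S i ∈ F.sets) → A ∈ F.sets}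
  empty_mem := fun F _ => F.empty_mem
  compl_mem := fun A hA F hF => F.compl_mem A (hA F hF)
  union_mem := fun A hA B hB F hF => F.union_mem A (hA F hF) B (hB F hF)
  pr1_mem := fun A hA F hF => F.pr1_mem A (hA F hF)
  pr2_mem := fun A hA F hF => F.pr2_mem A (hA F hF)
  tens_mem := fun A hA B hB hAX hBY F hF => F.tens_mem A (hA F hF) B (hB F hF) hAX hBY

/-- `φ` is an isomorphism of projective algebras from `F` to `G`: its restriction to the members of
`F` is a bijection onto the members of `G` which commutes with complement, union, `π₁`, `π₂` and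
`⊗`. -/
structure IsIso (F G : ProjAlg) (φ : Set Plane → Set Plane) : Prop where
  bijOn : Set.BijOn φ F.sets G.sets
  map_compl : ∀ A ∈ F.sets, φ Aᶜ = (φ A)ᶜ
  map_union : ∀ A ∈ F.sets, ∀ B ∈ F.sets, φ (A ∪ B) = φ A ∪ φ B
  map_pr1 : ∀ A ∈ F.sets, φ (pr1 A) = pr1 (φ A)
  map_pr2 : ∀ A ∈ F.sets, φ (pr2 A) = pr2 (φ A)
  map_tens : ∀ A ∈ F.sets, ∀ B ∈ F.sets, A ⊆ axX → B ⊆ axY → φ (tens A B) = tens (φ A) (φ B)

/-! ### Basic facts -/

theorem subset_gen {ι : Type} (S : ι → Set Plane) (i : ι) : S i ∈ (gen S).sets :=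
  fun _ hF => hF i

theorem gen_le {ι : Type} (S : ι → Set Plane) (F : ProjAlg) (hF : ∀ i, S i ∈ F.sets) :
    (gen S).sets ⊆ F.sets := fun _ hA => hA F hF

theorem ProjAlg.univ_mem (F : ProjAlg) : (univ : Set Plane) ∈ F.sets := by
  have := F.compl_mem _ F.empty_mem
  simpa using this

theorem ProjAlg.inter_mem (F : ProjAlg) {A B : Set Plane} (hA : A ∈ F.sets) (hB : B ∈ F.sets) :
    A ∩ B ∈ F.sets := by
  have := F.compl_mem _ (F.union_mem _ (F.compl_mem _ hA) _ (F.compl_mem _ hB))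
  simpa [compl_union] using this

theorem ProjAlg.diff_mem (F : ProjAlg) {A B : Set Plane} (hA : A ∈ F.sets) (hB : B ∈ F.sets) :
    A \ B ∈ F.sets := by
  rw [sdiff_eq]
  exact F.inter_mem hA (F.compl_mem _ hB)

theorem axX_eq : axX = pr1 univ := by
  ext p; simp [axX, pr1]

theorem axY_eq : axY = pr2 univ := by
  ext p; simp [axY, pr2]

theorem ProjAlg.axX_mem (F : ProjAlg) : axX ∈ F.sets := by
  rw [axX_eq]; exact F.pr1_mem _ F.univ_mem

theorem ProjAlg.axY_mem (F : ProjAlg) : axY ∈ F.sets := by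
  rw [axY_eq]; exact F.pr2_mem _ F.univ_mem

theorem tens_inter (A B : Set Plane) : tens A B = tens (A ∩ axX) (B ∩ axY) := by
  ext p; simp [tens, axX, axY]

theorem ProjAlg.tens_mem' (F : ProjAlg) {A B : Set Plane} (hA : A ∈ F.sets) (hB : B ∈ F.sets) :
    tens A B ∈ F.sets := by
  rw [tens_inter]
  exact F.tens_mem _ (F.inter_mem hA F.axX_mem) _ (F.inter_mem hB F.axY_mem) inter_subset_right
    inter_subset_right

/-! ### The relation `φ A = A'` between plane sets -/

/-- `A ∈ F` and `φ A = A'`. -/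
def Rel (F : ProjAlg) (φ : Set Plane → Set Plane) (A A' : Set Plane) : Prop :=
  A ∈ F.sets ∧ φ A = A'

section Transfer

variable {F G : ProjAlg} {φ : Set Plane → Set Plane} {A A' B B' : Set Plane}

theorem Rel.inj (h : IsIso F G φ) (hA : Rel F φ A A') (hB : Rel F φ B A') : A = B :=
  h.bijOn.injOn hA.1 hB.1 (hA.2.trans hB.2.symm)

theorem Rel.fn (hA : Rel F φ A A') (hB : Rel F φ A B') : A' = B' := hA.2.symm.trans hB.2

theorem Rel.compl (h : IsIso F G φ) (hA : Rel F φ A A') : Rel F φ Aᶜ A'ᶜ := by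
  obtain ⟨hA, rfl⟩ := hA
  exact ⟨F.compl_mem _ hA, h.map_compl _ hA⟩

theorem Rel.union (h : IsIso F G φ) (hA : Rel F φ A A') (hB : Rel F φ B B') :
    Rel F φ (A ∪ B) (A' ∪ B') := by
  obtain ⟨hA, rfl⟩ := hA
  obtain ⟨hB, rfl⟩ := hB
  exact ⟨F.union_mem _ hA _ hB, h.map_union _ hA _ hB⟩

theorem Rel.pr1 (h : IsIso F G φ) (hA : Rel F φ A A') : Rel F φ (pr1 A) (Pool.Agent.Results.MP_71be7b_lc.Continuum.pr1 A') := by
  obtain ⟨hA, rfl⟩ := hA
  exact ⟨F.pr1_mem _ hA, h.map_pr1 _ hA⟩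

theorem Rel.pr2 (h : IsIso F G φ) (hA : Rel F φ A A') : Rel F φ (pr2 A) (Pool.Agent.Results.MP_71be7b_lc.Continuum.pr2 A') := by
  obtain ⟨hA, rfl⟩ := hA
  exact ⟨F.pr2_mem _ hA, h.map_pr2 _ hA⟩

theorem Rel.inter (h : IsIso F G φ) (hA : Rel F φ A A') (hB : Rel F φ B B') :
    Rel F φ (A ∩ B) (A' ∩ B') := by
  have h := Rel.compl h (Rel.union h (Rel.compl h hA) (Rel.compl h hB))
  simpa [compl_union] using h

theorem Rel.diff (h : IsIso F G φ) (hA : Rel F φ A A') (hB : Rel F φ B B') :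
    Rel F φ (A \ B) (A' \ B') := by
  have h := Rel.inter h hA (Rel.compl h hB)
  rwa [← sdiff_eq, ← sdiff_eq] at h

theorem Rel.empty (h : IsIso F G φ) : Rel F φ ∅ ∅ := by
  have h1 : Rel F φ ∅ (φ ∅) := ⟨F.empty_mem, rfl⟩
  have h2 := Rel.diff h h1 h1
  simpa using h2

theorem Rel.univ (h : IsIso F G φ) : Rel F φ Set.univ Set.univ := by
  have h := Rel.compl h (Rel.empty h)
  simpa using h

theorem Rel.axX (h : IsIso F G φ) : Rel F φ axX axX := by
  rw [axX_eq]; exact Rel.pr1 h (Rel.univ h)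

theorem Rel.axY (h : IsIso F G φ) : Rel F φ axY axY := by
  rw [axY_eq]; exact Rel.pr2 h (Rel.univ h)

theorem Rel.subset_axX (h : IsIso F G φ) (hA : Rel F φ A A') : A' ⊆ Pool.Agent.Results.MP_71be7b_lc.Continuum.axX ↔ A ⊆ Pool.Agent.Results.MP_71be7b_lc.Continuum.axX := by
  rw [← inter_eq_left, ← inter_eq_left]
  have h2 := Rel.inter h hA (Rel.axX h)
  constructor
  · intro h1
    rw [h1] at h2
    exact Rel.inj h h2 hA
  · intro h1
    rw [h1] at h2
    exact Rel.fn h2 hA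

theorem Rel.subset_axY (h : IsIso F G φ) (hA : Rel F φ A A') : A' ⊆ Pool.Agent.Results.MP_71be7b_lc.Continuum.axY ↔ A ⊆ Pool.Agent.Results.MP_71be7b_lc.Continuum.axY := by
  rw [← inter_eq_left, ← inter_eq_left]
  have h2 := Rel.inter h hA (Rel.axY h)
  constructor
  · intro h1
    rw [h1] at h2
    exact Rel.inj h h2 hA
  · intro h1
    rw [h1] at h2
    exact Rel.fn h2 hA

theorem Rel.tens (h : IsIso F G φ) (hA : Rel F φ A A') (hB : Rel F φ B B') :
    Rel F φ (tens A B) (Pool.Agent.Results.MP_71be7b_lc.Continuum.tens A' B') := by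
  rw [tens_inter, tens_inter A' B']
  obtain ⟨hA, h1⟩ := Rel.inter h hA (Rel.axX h)
  obtain ⟨hB, h2⟩ := Rel.inter h hB (Rel.axY h)
  rw [← h1, ← h2]
  exact ⟨F.tens_mem _ hA _ hB inter_subset_right inter_subset_right,
    h.map_tens _ hA _ hB inter_subset_right inter_subset_right⟩

theorem Rel.eq_empty_iff (h : IsIso F G φ) (hA : Rel F φ A A') : A = ∅ ↔ A' = ∅ := by
  constructor
  · rintro rfl
    exact Rel.fn hA (Rel.empty h)
  · rintro rfl
    exact Rel.inj h hA (Rel.empty h)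

end Transfer

/-! ### Being isomorphic is an equivalence relation -/

theorem isIso_refl (F : ProjAlg) : IsIso F F id where
  bijOn := bijOn_id _
  map_compl _ _ := rfl
  map_union _ _ _ _ := rfl
  map_pr1 _ _ := rfl
  map_pr2 _ _ := rfl
  map_tens _ _ _ _ _ _ := rfl

theorem IsIso.trans {F G H : ProjAlg} {φ ψ : Set Plane → Set Plane} (h : IsIso F G φ)
    (h' : IsIso G H ψ) : IsIso F H (ψ ∘ φ) where
  bijOn := h'.bijOn.comp h.bijOn
  map_compl A hA := by
    have hA' := h.bijOn.mapsTo hA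
    simp only [Function.comp_apply]
    rw [h.map_compl A hA, h'.map_compl _ hA']
  map_union A hA B hB := by
    have hA' := h.bijOn.mapsTo hA
    have hB' := h.bijOn.mapsTo hB
    simp only [Function.comp_apply]
    rw [h.map_union A hA B hB, h'.map_union _ hA' _ hB']
  map_pr1 A hA := by
    have hA' := h.bijOn.mapsTo hA
    simp only [Function.comp_apply]
    rw [h.map_pr1 A hA, h'.map_pr1 _ hA']
  map_pr2 A hA := by
    have hA' := h.bijOn.mapsTo hA
    simp only [Function.comp_apply]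
    rw [h.map_pr2 A hA, h'.map_pr2 _ hA']
  map_tens A hA B hB hAX hBY := by
    have hA' := h.bijOn.mapsTo hA
    have hB' := h.bijOn.mapsTo hB
    simp only [Function.comp_apply]
    rw [h.map_tens A hA B hB hAX hBY, h'.map_tens _ hA' _ hB'
      ((Rel.subset_axX h ⟨hA, rfl⟩).2 hAX) ((Rel.subset_axY h ⟨hB, rfl⟩).2 hBY)]

theorem IsIso.exists_symm {F G : ProjAlg} {φ : Set Plane → Set Plane} (h : IsIso F G φ) :
    ∃ ψ, IsIso G F ψ := by
  classical
  let ψ := Function.invFunOn φ F.sets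
  have hinv : Set.InvOn ψ φ F.sets G.sets := h.bijOn.invOn_invFunOn
  have hb : Set.BijOn ψ G.sets F.sets := (Set.bijOn_comm hinv).2 h.bijOn
  have key : ∀ {A : Set Plane}, A ∈ G.sets → Rel F φ (ψ A) A :=
    fun {A} hA => ⟨hb.mapsTo hA, hinv.2 hA⟩
  have key2 : ∀ {C A : Set Plane}, Rel F φ C A → ψ A = C := by
    rintro C A ⟨hC, rfl⟩
    exact hinv.1 hC
  exact ⟨ψ, hb, fun A hA => key2 (Rel.compl h (key hA)),
    fun A hA B hB => key2 (Rel.union h (key hA) (key hB)),
    fun A hA => key2 (Rel.pr1 h (key hA)), fun A hA => key2 (Rel.pr2 h (key hA)),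
    fun A hA B hB _ _ => key2 (Rel.tens h (key hA) (key hB))⟩

/-- Isomorphism as an equivalence relation on a collection `K` of projective algebras. -/
def isoSetoid (K : Set ProjAlg) : Setoid K where
  r F G := ∃ φ, IsIso F.1 G.1 φ
  iseqv :=
    { refl := fun F => ⟨id, isIso_refl F.1⟩
      symm := fun ⟨_, h⟩ => h.exists_symm
      trans := fun ⟨_, h⟩ ⟨_, h'⟩ => ⟨_, h.trans h'⟩ }

/-- The number of isomorphism classes in a collection `K` of projective algebras. -/
noncomputable def isoClasses (K : Set ProjAlg) : Cardinal :=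
  #(Quotient (isoSetoid K))

/-! ### Terms -/

inductive Tm (k : ℕ) : Type
  | var (i : Fin k) : Tm k
  | emp : Tm k
  | compl (t : Tm k) : Tm k
  | union (s t : Tm k) : Tm k
  | pr1 (t : Tm k) : Tm k
  | pr2 (t : Tm k) : Tm k
  | tens (s t : Tm k) : Tm k
  deriving Countable

def Tm.eval {k : ℕ} (S : Fin k → Set Plane) : Tm k → Set Plane
  | .var i => S i
  | .emp => ∅
  | .compl t => (t.eval S)ᶜ
  | .union s t => s.eval S ∪ t.eval S
  | .pr1 t => Pool.Agent.Results.MP_71be7b_lc.Continuum.pr1 (t.eval S)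
  | .pr2 t => Pool.Agent.Results.MP_71be7b_lc.Continuum.pr2 (t.eval S)
  | .tens s t => Pool.Agent.Results.MP_71be7b_lc.Continuum.tens (s.eval S) (t.eval S)

theorem Tm.eval_mem {k : ℕ} (S : Fin k → Set Plane) (t : Tm k) : t.eval S ∈ (gen S).sets := by
  induction t with
  | var i => exact subset_gen S i
  | emp => exact (gen S).empty_mem
  | compl t ih => exact (gen S).compl_mem _ ih
  | union s t ihs iht => exact (gen S).union_mem _ ihs _ iht
  | pr1 t ih => exact (gen S).pr1_mem _ ih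
  | pr2 t ih => exact (gen S).pr2_mem _ ih
  | tens s t ihs iht => exact (gen S).tens_mem' ihs iht

/-- The algebra of values of terms. -/
def valAlg {k : ℕ} (S : Fin k → Set Plane) : ProjAlg where
  sets := Set.range (fun t : Tm k => t.eval S)
  empty_mem := ⟨.emp, rfl⟩
  compl_mem := by rintro _ ⟨t, rfl⟩; exact ⟨.compl t, rfl⟩
  union_mem := by rintro _ ⟨s, rfl⟩ _ ⟨t, rfl⟩; exact ⟨.union s t, rfl⟩
  pr1_mem := by rintro _ ⟨t, rfl⟩; exact ⟨.pr1 t, rfl⟩
  pr2_mem := by rintro _ ⟨t, rfl⟩; exact ⟨.pr2 t, rfl⟩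
  tens_mem := by rintro _ ⟨s, rfl⟩ _ ⟨t, rfl⟩ _ _; exact ⟨.tens s t, rfl⟩

theorem exists_tm {k : ℕ} (S : Fin k → Set Plane) {A : Set Plane} (hA : A ∈ (gen S).sets) :
    ∃ t : Tm k, t.eval S = A :=
  gen_le S (valAlg S) (fun i => ⟨.var i, rfl⟩) hA

theorem gen_countable {k : ℕ} (S : Fin k → Set Plane) : (gen S).sets.Countable := by
  have : (gen S).sets ⊆ Set.range (fun t : Tm k => t.eval S) := fun A hA => exists_tm S hA
  exact (Set.countable_range _).mono this

/-! ### Upper bound -/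

/-- The kernel of the evaluation of terms. -/
def ker {k : ℕ} (S : Fin k → Set Plane) : Set (Tm k × Tm k) := {p | p.1.eval S = p.2.eval S}

theorem iso_of_ker {k : ℕ} (S T : Fin k → Set Plane) (h : ker S = ker T) :
    ∃ φ, IsIso (gen S) (gen T) φ := by
  classical
  have hk : ∀ s t : Tm k, s.eval S = t.eval S ↔ s.eval T = t.eval T := by
    intro s t
    have : (s, t) ∈ ker S ↔ (s, t) ∈ ker T := by rw [h]
    exact this
  let f : Set Plane → Set Plane := fun A =>
    if hA : ∃ t : Tm k, t.eval S = A then hA.choose.eval T else ∅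
  have hf : ∀ (t : Tm k), f (t.eval S) = t.eval T := by
    intro t
    have hA : ∃ s : Tm k, s.eval S = t.eval S := ⟨t, rfl⟩
    show (if hA : ∃ s : Tm k, s.eval S = t.eval S then hA.choose.eval T else ∅) = _
    rw [dif_pos hA]
    exact (hk _ _).1 hA.choose_spec
  have ex : ∀ A ∈ (gen S).sets, ∃ t : Tm k, t.eval S = A := fun A hA => exists_tm S hA
  refine ⟨f, ⟨?_, ?_, ?_⟩, ?_, ?_, ?_, ?_, ?_⟩
  · intro A hA
    obtain ⟨t, rfl⟩ := ex A hA
    rw [hf]
    exact t.eval_mem T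
  · intro A hA B hB hAB
    obtain ⟨t, rfl⟩ := ex A hA
    obtain ⟨s, rfl⟩ := ex B hB
    rw [hf, hf] at hAB
    exact (hk _ _).2 hAB
  · intro B hB
    obtain ⟨t, rfl⟩ := exists_tm T hB
    exact ⟨t.eval S, t.eval_mem S, hf t⟩
  · intro A hA
    obtain ⟨t, rfl⟩ := ex A hA
    rw [hf]
    exact hf (.compl t)
  · intro A hA B hB
    obtain ⟨s, rfl⟩ := ex A hA
    obtain ⟨t, rfl⟩ := ex B hB
    rw [hf, hf]
    exact hf (.union s t)
  · intro A hA
    obtain ⟨t, rfl⟩ := ex A hA
    rw [hf]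
    exact hf (.pr1 t)
  · intro A hA
    obtain ⟨t, rfl⟩ := ex A hA
    rw [hf]
    exact hf (.pr2 t)
  · intro A hA B hB _ _
    obtain ⟨s, rfl⟩ := ex A hA
    obtain ⟨t, rfl⟩ := ex B hB
    rw [hf, hf]
    exact hf (.tens s t)

theorem isoClasses_le {k : ℕ} (K : Set ProjAlg)
    (hK : ∀ F ∈ K, ∃ S : Fin k → Set Plane, F = gen S) : isoClasses K ≤ 𝔠 := by
  classical
  choose! s hs using hK
  let g : Quotient (isoSetoid K) → Set (Tm k × Tm k) := fun q => ker (s q.out.1)
  have hg : Function.Injective g := by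
    intro q r hqr
    obtain ⟨φ, hφ⟩ := iso_of_ker _ _ hqr
    rw [← hs _ q.out.2, ← hs _ r.out.2] at hφ
    have : (isoSetoid K).r q.out r.out := ⟨φ, hφ⟩
    have h2 : (⟦q.out⟧ : Quotient (isoSetoid K)) = ⟦r.out⟧ := Quotient.sound this
    rwa [Quotient.out_eq, Quotient.out_eq] at h2
  have h1 : isoClasses K ≤ #(Set (Tm k × Tm k)) := Cardinal.mk_le_of_injective hg
  refine h1.trans ?_
  rw [Cardinal.mk_set, ← Cardinal.two_power_aleph0]
  exact Cardinal.power_le_power_left two_ne_zero (Cardinal.mk_le_aleph0)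

/-! ### The staircase -/

/-- One step of the ladder on the `X` axis. -/
def stepX (S E : Set Plane) : Set Plane :=
  axX \ pr1 ((axXᶜ \ S) ∩ tens axX ((axY \ axX) \ E))

/-- One step of the ladder on the `Y` axis. -/
def stepY (S D : Set Plane) : Set Plane :=
  (axY \ axX) \ pr2 ((S \ axX) ∩ tens (axX \ D) axY)

/-- The ladder. -/
def ladder (S : Set Plane) : ℕ → Set Plane × Set Plane
  | 0 => (∅, ∅)
  | n + 1 => (stepX S (ladder S n).2, stepY S (stepX S (ladder S n).2))

/-- The test sets. -/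
def test (S : Set Plane) (n : ℕ) : Set Plane :=
  ((ladder S (n + 1)).1 \ (ladder S n).1) ∩ S

section Transfer2

variable {F G : ProjAlg} {φ : Set Plane → Set Plane} {A A' B B' : Set Plane}

theorem Rel.stepX (h : IsIso F G φ) (hA : Rel F φ A A') (hB : Rel F φ B B') :
    Rel F φ (stepX A B) (Pool.Agent.Results.MP_71be7b_lc.Continuum.stepX A' B') :=
  Rel.diff h (Rel.axX h) (Rel.pr1 h (Rel.inter h (Rel.diff h (Rel.compl h (Rel.axX h)) hA)
    (Rel.tens h (Rel.axX h) (Rel.diff h (Rel.diff h (Rel.axY h) (Rel.axX h)) hB))))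

theorem Rel.stepY (h : IsIso F G φ) (hA : Rel F φ A A') (hB : Rel F φ B B') :
    Rel F φ (stepY A B) (Pool.Agent.Results.MP_71be7b_lc.Continuum.stepY A' B') :=
  Rel.diff h (Rel.diff h (Rel.axY h) (Rel.axX h)) (Rel.pr2 h (Rel.inter h
    (Rel.diff h hA (Rel.axX h)) (Rel.tens h (Rel.diff h (Rel.axX h) hB) (Rel.axY h))))

theorem Rel.ladder (h : IsIso F G φ) (hA : Rel F φ A A') (n : ℕ) :
    Rel F φ (ladder A n).1 (Pool.Agent.Results.MP_71be7b_lc.Continuum.ladder A' n).1 ∧ Rel F φ (Pool.Agent.Results.MP_71be7b_lc.Continuum.ladder A n).2 (Pool.Agent.Results.MP_71be7b_lc.Continuum.ladder A' n).2 := by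
  induction n with
  | zero => exact ⟨Rel.empty h, Rel.empty h⟩
  | succ n ih => exact ⟨Rel.stepX h hA ih.2, Rel.stepY h hA (Rel.stepX h hA ih.2)⟩

theorem Rel.test (h : IsIso F G φ) (hA : Rel F φ A A') (n : ℕ) :
    Rel F φ (test A n) (Pool.Agent.Results.MP_71be7b_lc.Continuum.test A' n) :=
  Rel.inter h (Rel.diff h (Rel.ladder h hA (n + 1)).1 (Rel.ladder h hA n).1) hA

end Transfer2

/-- The generator coding the set `A` of natural numbers. -/
def stair (A : Set ℕ) : Set Plane :=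
  {p | (p.2 ≠ 0 ∧ ⌊p.1⌋₊ ≤ ⌊p.2⌋₊) ∨ (p.2 = 0 ∧ ⌊p.1⌋₊ ∈ A)}

theorem exists_pos_floor (n : ℕ) : ∃ y : ℝ, y ≠ 0 ∧ ⌊y⌋₊ = n := by
  refine ⟨n + 1 / 2, by positivity, ?_⟩
  rw [Nat.floor_eq_iff (by positivity)]
  constructor <;> linarith

theorem ladder_stair (A : Set ℕ) (n : ℕ) :
    (ladder (stair A) n).1 = {p : Plane | p.2 = 0 ∧ ⌊p.1⌋₊ < n} ∧
      (ladder (stair A) n).2 = {p : Plane | p.1 = 0 ∧ p.2 ≠ 0 ∧ ⌊p.2⌋₊ < n} := by
  induction n with
  | zero => constructor <;> ext p <;> simp [ladder]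
  | succ n ih =>
    have h1 : stepX (stair A) (ladder (stair A) n).2 = {p : Plane | p.2 = 0 ∧ ⌊p.1⌋₊ < n + 1} := by
      rw [ih.2]
      ext ⟨x, y⟩
      simp only [stepX, axX, pr1, stair, tens, axY, mem_sdiff, mem_inter_iff, mem_ofPred_eq,
        mem_compl_iff]
      constructor
      · rintro ⟨rfl, h⟩
        refine ⟨rfl, ?_⟩
        by_contra hlt
        obtain ⟨y, hy0, hy⟩ := exists_pos_floor n
        apply h
        refine ⟨rfl, y, ⟨hy0, ?_⟩, trivial, ⟨trivial, hy0⟩, ?_⟩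
        · rintro (⟨_, h2⟩ | ⟨h2, _⟩)
          · rw [hy] at h2; omega
          · exact hy0 h2
        · rintro ⟨_, _, h3⟩
          rw [hy] at h3; exact lt_irrefl _ h3
      · rintro ⟨rfl, h⟩
        refine ⟨rfl, ?_⟩
        rintro ⟨_, y, ⟨hy0, h2⟩, _, _, h3⟩
        apply h3
        refine ⟨trivial, hy0, ?_⟩
        by_contra h4
        apply h2
        left
        exact ⟨hy0, by omega⟩
    have h2 : stepY (stair A) {p : Plane | p.2 = 0 ∧ ⌊p.1⌋₊ < n + 1}
        = {p : Plane | p.1 = 0 ∧ p.2 ≠ 0 ∧ ⌊p.2⌋₊ < n + 1} := by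
      ext ⟨x, y⟩
      simp only [stepY, axX, pr2, stair, tens, axY, mem_sdiff, mem_inter_iff, mem_ofPred_eq]
      constructor
      · rintro ⟨⟨rfl, hy0⟩, h⟩
        refine ⟨rfl, hy0, ?_⟩
        by_contra hlt
        obtain ⟨x, hx0, hx⟩ := exists_pos_floor (n + 1)
        apply h
        refine ⟨rfl, x, ⟨?_, hy0⟩, ⟨trivial, ?_⟩, trivial⟩
        · left
          refine ⟨hy0, ?_⟩
          rw [hx]; omega
        · rintro ⟨_, h3⟩
          rw [hx] at h3; exact lt_irrefl _ h3
      · rintro ⟨rfl, hy0, h⟩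
        refine ⟨⟨rfl, hy0⟩, ?_⟩
        rintro ⟨_, x, ⟨h2, _⟩, ⟨_, h3⟩, _⟩
        rcases h2 with ⟨_, h2⟩ | ⟨h2, _⟩
        · apply h3
          exact ⟨trivial, by omega⟩
        · exact hy0 h2
    refine ⟨h1, ?_⟩
    show stepY (stair A) (stepX (stair A) (ladder (stair A) n).2) = _
    rw [h1, h2]

theorem test_stair (A : Set ℕ) (n : ℕ) : test (stair A) n = ∅ ↔ n ∉ A := by
  rw [test, (ladder_stair A (n + 1)).1, (ladder_stair A n).1]
  constructor
  · intro h hn
    obtain ⟨x, _, hx⟩ := exists_pos_floor n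
    have : ((x, 0) : Plane) ∈ (∅ : Set Plane) := by
      rw [← h]
      refine ⟨⟨⟨rfl, ?_⟩, ?_⟩, Or.inr ⟨rfl, ?_⟩⟩
      · simp [hx]
      · rintro ⟨_, h3⟩
        simp [hx] at h3
      · simpa [hx] using hn
    exact this
  · intro hn
    rw [eq_empty_iff_forall_notMem]
    rintro ⟨x, y⟩ ⟨⟨⟨h1, h2⟩, h3⟩, h4⟩
    simp only at h1 h2
    rcases h4 with ⟨h4, _⟩ | ⟨_, h4⟩
    · exact h4 h1
    · apply hn
      have : ¬ ⌊x⌋₊ < n := fun h => h3 ⟨h1, h⟩
      have h5 : ⌊x⌋₊ = n := by omega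
      simpa [h5] using h4

/-- The algebra generated by the single set `stair A`. -/
def stairAlg (A : Set ℕ) : ProjAlg := gen (fun _ : Fin 1 => stair A)

theorem stair_mem (A : Set ℕ) : stair A ∈ (stairAlg A).sets :=
  subset_gen (fun _ : Fin 1 => stair A) 0

theorem le_isoClasses (K : Set ProjAlg) (hK : ∀ A : Set ℕ, stairAlg A ∈ K)
    {k : ℕ} (hK2 : ∀ F ∈ K, ∃ S : Fin k → Set Plane, F = gen S) :
    𝔠 ≤ isoClasses K := by
  classical
  let f : Set ℕ → Quotient (isoSetoid K) := fun A => Quotient.mk _ ⟨stairAlg A, hK A⟩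
  have hf : ∀ q, #(f ⁻¹' {q}) ≤ ℵ₀ := by
    intro q
    have hiso : ∀ A : f ⁻¹' {q}, ∃ φ, IsIso (stairAlg A.1) q.out.1 φ := by
      intro A
      have h1 : f A.1 = q := A.2
      have h2 : (⟦(⟨stairAlg A.1, hK A.1⟩ : K)⟧ : Quotient (isoSetoid K)) = ⟦q.out⟧ := by
        rw [Quotient.out_eq]; exact h1
      exact Quotient.exact h2
    choose φ hφ using hiso
    let g : f ⁻¹' {q} → q.out.1.sets := fun A =>
      ⟨φ A (stair A.1), (hφ A).bijOn.mapsTo (stair_mem A.1)⟩
    have hg : Function.Injective g := by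
      intro A B hAB
      apply Subtype.ext
      ext n
      have hA : Rel (stairAlg A.1) (φ A) (stair A.1) (g A).1 := ⟨stair_mem A.1, rfl⟩
      have hB : Rel (stairAlg B.1) (φ B) (stair B.1) (g A).1 := ⟨stair_mem B.1, by rw [hAB]⟩
      have h1 := Rel.eq_empty_iff (hφ A) (Rel.test (hφ A) hA n)
      have h2 := Rel.eq_empty_iff (hφ B) (Rel.test (hφ B) hB n)
      rw [test_stair] at h1 h2
      rw [← not_iff_not]
      exact h1.trans h2.symm
    have hc : (q.out.1).sets.Countable := by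
      obtain ⟨S, hS⟩ := hK2 _ q.out.2
      rw [hS]
      exact gen_countable S
    exact (Cardinal.mk_le_of_injective hg).trans (Cardinal.le_aleph0_iff_set_countable.2 hc)
  have h := Cardinal.mk_le_mk_mul_of_mk_preimage_le f hf
  rw [Cardinal.mk_set, Cardinal.mk_nat, Cardinal.two_power_aleph0] at h
  by_contra hlt
  rw [not_le] at hlt
  have h2 : isoClasses K * ℵ₀ < 𝔠 :=
    Cardinal.mul_lt_of_lt Cardinal.aleph0_le_continuum hlt Cardinal.aleph0_lt_continuum
  exact absurd h (not_le.2 h2)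

/-! ### The two collections of `k`-generated algebras -/

/-- The projective algebras generated by `k` plane sets (repetitions allowed). -/
def genBy (k : ℕ) : Set ProjAlg := {F | ∃ S : Fin k → Set Plane, F = gen S}

/-- The projective algebras generated by `k` distinct plane sets. -/
def genByDistinct (k : ℕ) : Set ProjAlg :=
  {F | ∃ S : Fin k → Set Plane, Function.Injective S ∧ F = gen S}

theorem ProjAlg.ext' {F G : ProjAlg} (h : F.sets = G.sets) : F = G := by
  cases F; cases G; simp only at h; subst h; rfl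

theorem gen_eq_of {ι κ : Type} (S : ι → Set Plane) (T : κ → Set Plane)
    (h1 : ∀ i, S i ∈ (gen T).sets) (h2 : ∀ j, T j ∈ (gen S).sets) : gen S = gen T :=
  ProjAlg.ext' (Subset.antisymm (gen_le S _ h1) (gen_le T _ h2))

theorem ladder_mem (F : ProjAlg) {S : Set Plane} (hS : S ∈ F.sets) (n : ℕ) :
    (ladder S n).1 ∈ F.sets :=
  (Rel.ladder (isIso_refl F) (⟨hS, rfl⟩ : Rel F id S S) n).1.1

theorem ladder_injective (A : Set ℕ) :
    Function.Injective (fun n => (ladder (stair A) n).1) := by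
  have key : ∀ m n : ℕ, m < n → (ladder (stair A) m).1 ≠ (ladder (stair A) n).1 := by
    intro m n hmn h
    rw [(ladder_stair A m).1, (ladder_stair A n).1] at h
    obtain ⟨x, _, hx⟩ := exists_pos_floor m
    have : ((x, 0) : Plane) ∈ {p : Plane | p.2 = 0 ∧ ⌊p.1⌋₊ < m} := by
      rw [h]; exact ⟨rfl, by simpa [hx] using hmn⟩
    have h3 := this.2
    simp [hx] at h3
  intro m n h
  rcases lt_trichotomy m n with h1 | h1 | h1
  · exact absurd h (key m n h1)
  · exact h1
  · exact absurd h.symm (key n m h1)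

theorem stairAlg_mem_distinct (k : ℕ) (hk : 1 ≤ k) (A : Set ℕ) :
    stairAlg A ∈ genByDistinct k := by
  classical
  -- choose `k` distinct members, the first one being the generator
  obtain ⟨m, rfl⟩ : ∃ m, k = m + 1 := ⟨k - 1, by omega⟩
  have hinf : ((stairAlg A).sets \ {stair A}).Infinite := by
    apply Set.Infinite.sdiff
    · refine Set.infinite_of_injective_forall_mem (ladder_injective A) ?_
      intro n
      exact ladder_mem _ (stair_mem A) n
    · exact Set.finite_singleton _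
  let e : ℕ ↪ ((stairAlg A).sets \ {stair A} : Set (Set Plane)) := hinf.natEmbedding
  let S : Fin (m + 1) → Set Plane := Fin.cons (stair A) (fun i : Fin m => (e i : Set Plane))
  refine ⟨S, ?_, ?_⟩
  · rw [Fin.cons_injective_iff]
    constructor
    · rintro ⟨i, hi⟩
      exact (e i).2.2 hi
    · intro i j hij
      have : e i = e j := Subtype.ext hij
      exact Fin.ext (e.injective this)
  · apply gen_eq_of
    · intro _
      exact subset_gen S 0
    · intro j
      refine Fin.cases ?_ ?_ j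
      · exact stair_mem A
      · intro i
        exact (e i).2.1

theorem distinct_subset (k : ℕ) : genByDistinct k ⊆ genBy k := by
  rintro F ⟨S, _, h⟩
  exact ⟨S, h⟩

/-- For every `k ≥ 1` there are exactly `2^ℵ₀` isomorphism classes of projective algebras generated
by `k` subsets of the plane, whether or not the `k` subsets are required to be distinct. -/
theorem result (k : ℕ) (hk : 1 ≤ k) :
    isoClasses (genBy k) = 2 ^ ℵ₀ ∧ isoClasses (genByDistinct k) = 2 ^ ℵ₀ := by
  rw [Cardinal.two_power_aleph0]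
  have hA : ∀ A : Set ℕ, stairAlg A ∈ genByDistinct k := stairAlg_mem_distinct k hk
  have h1 : ∀ F ∈ genBy k, ∃ S : Fin k → Set Plane, F = gen S := fun F hF => hF
  have h2 : ∀ F ∈ genByDistinct k, ∃ S : Fin k → Set Plane, F = gen S :=
    fun F hF => distinct_subset k hF
  exact ⟨le_antisymm (isoClasses_le _ h1) (le_isoClasses _ (fun A => distinct_subset k (hA A)) h1),
    le_antisymm (isoClasses_le _ h2) (le_isoClasses _ hA h2)⟩

end Pool.Agent.Results.MP_71be7b_lc.Continuum
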